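import Pool.Agent.H92.S2.LUT2
import Pool.Agent.H3.S2.Tg
import Pool.Agent.H54.SFU.PEN

/-!
# Board sfv_modules, row PEN2: choice of the coordinates
-/

set_option autoImplicit false

namespace Pool.Agent.H35.SFV

open MvPolynomial
open Pool.Agent.H84.SM (dp cr dt)
open Pool.Agent.H3.SF Pool.Agent.H3.S2 Pool.Agent.H92.SF Pool.Agent.H92.S2
open Pool.Agent.H54.SFU (sch_hom sch_coeff exists_pt)

theorem pf_PEN2 (hSFW : Pool.Agent.H3.S2.T_SFW) (hTRX : T_TRX2) (hN2Y : T_N2Y) : T_PEN2 := by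
  intro k F _ _ _ _ _ u dd δ j0 c0 J m G hS hm sg S hC h H hH hH0
  have hB : Bw u dd δ j0 c0 J m G := Bw.of hS hC hm
  obtain ⟨-, -, -, -, -, hN⟩ := hSFW k F u dd δ j0 c0 J hS m G hC.toCrw
  obtain ⟨N, hN0, hNh, hNi⟩ := hN (by omega)
  obtain ⟨r, Λ, hΛ0, hΛh, hΛ⟩ := hN2Y k F u dd δ j0 c0 J m G hB
  -- the point
  have : Infinite k := IsAlgClosed.instInfinite
  obtain ⟨a, b, hab⟩ := exists_pt ((hNh.mul hH).mul hΛh) (mul_ne_zero (mul_ne_zero hN0 hH0) hΛ0)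
  rw [map_mul, map_mul] at hab
  have hab1 := left_ne_zero_of_mul (left_ne_zero_of_mul hab)
  have hab2 := right_ne_zero_of_mul (left_ne_zero_of_mul hab)
  have hab3 := right_ne_zero_of_mul hab
  obtain ⟨t1, tc, t2, -, t4, -⟩ := hTRX k F u dd δ j0 c0 J m G hB a b
  refine ⟨a, b, ⟨t1, ?_, ?_⟩, tc sg S hC, ?_⟩
  · refine ⟨δ * m, C ((eval ![a, b, 1] N)⁻¹) * sch a b N, ?_, ?_, ?_, ?_⟩
    · have h1 := hS.pos
      have h2 : 0 < δ * m := Nat.mul_pos (by omega) (by omega)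
      omega
    · have := (isHomogeneous_C (Fin 3) ((eval ![a, b, 1] N)⁻¹)).mul (sch_hom a b hNh)
      rwa [zero_add] at this
    · rw [coeff_C_mul, sch_coeff a b hNh, inv_mul_cancel₀ hab1]
    · rw [t2, map_mul, t4, algHom_C, mul_div_assoc]
      exact (Bb k u).mul_mem ((Bb k u).algebraMap_mem _) hNi
  · intro z hz h1
    rw [t2] at hz h1 ⊢
    rw [t4] at h1 ⊢
    exact hΛ a b hab3 z hz h1
  · rw [sch_coeff a b hH]
    exact hab2

end Pool.Agent.H35.SFV
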